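import Mathlib
import Pool.Agent.H.MP_3ce754_lc.A
import Pool.Agent.H.MP_ea2cf4_gt.A

set_option autoImplicit false

namespace Pool.Agent.Results.MP_ceb5ee_gt.Q1

open Set Filter Topology Function MeasureTheory Pool.Agent.H.MP_3ce754_lc Pool.Agent.H.MP_ea2cf4_gt

theorem nov {X : Type} [TopologicalSpace X] [T2Space X] [MeasurableSpace X] [BorelSpace X]
    (A : ℕ → Set X) (hA : ∀ i, AnalyticSet (A i)) (h : ∀ x, ∃ i, x ∉ A i) :
    ∃ D : ℕ → Set X, (∀ i, MeasurableSet (D i) ∧ A i ⊆ D i) ∧ ∀ x, ∃ i, x ∉ D i := by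
  classical
  by_cases h0 : ∃ i, A i = ∅
  · obtain ⟨i, hi⟩ := h0
    refine ⟨update (fun _ => univ) i ∅, fun j => ?_, fun x => ⟨i, by simp⟩⟩
    by_cases e : j = i <;> simp [e, hi]
  have : ∀ i, ∃ f : (ℕ → ℕ) → X, Continuous f ∧ range f = A i := fun i => by
    have := hA i
    rw [AnalyticSet] at this
    exact this.resolve_left fun h => h0 ⟨i, h⟩
  choose f f1 f2 using this
  let P : List ℕ → Prop := fun σ => ∃ D : ℕ → Set X, (∀ i, MeasurableSet (D i) ∧
    ∀ z, Ex σ z → f i (fun m => z (Nat.pair i m)) ∈ D i) ∧ ∀ x, ∃ i, x ∉ D i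
  have h1 : ∀ σ : {σ // ¬ P σ}, ∃ τ : {σ // ¬ P σ}, σ.1 <:+ τ.1 ∧ σ.1.length < τ.1.length := by
    rintro ⟨σ, hσ⟩
    by_contra h'
    have : ∀ j, P (j :: σ) := fun j => by_contra fun h =>
      h' ⟨⟨_, h⟩, List.suffix_cons _ _, by simp⟩
    choose D d1 d2 using this
    refine hσ ⟨fun i => if i = σ.length.unpair.1 then ⋃ j, D j i else ⋂ j, D j i,
      fun i => ⟨?_, fun z hz => ?_⟩, fun x => ?_⟩
    · beta_reduce
      split_ifs
      exacts [MeasurableSet.iUnion fun j => (d1 j i).1, MeasurableSet.iInter fun j => (d1 j i).1]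
    · beta_reduce
      split_ifs with e
      · subst e
        exact mem_iUnion.2 ⟨z σ.length, (d1 _ _).2 z (congrArg (_ :: ·) hz)⟩
      · refine mem_iInter.2 fun j => ?_
        convert (d1 j i).2 (update z σ.length j) (congrArg₂ (· :: ·) (update_self _ _ _)
          ((PiNat.res_eq_res.2 fun n hn => update_of_ne hn.ne _ _).trans hz)) using 3 with m
        exact (update_of_ne (fun h => e (by simp [← h])) _ _).symm
    · by_contra h
      push Not at h
      have := h σ.length.unpair.1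
      rw [if_pos rfl] at this
      obtain ⟨j, hj⟩ := mem_iUnion.1 this
      obtain ⟨i, hi⟩ := d2 j x
      have := h i
      split_ifs at this with e
      exacts [hi (e ▸ hj), hi (mem_iInter.1 this j)]
  choose F g1 g2 using h1
  by_contra h'
  let s : ℕ → {σ // ¬ P σ} := fun n => F^[n] ⟨[], fun ⟨D, d1, d2⟩ => h' ⟨D, fun i => ⟨(d1 i).1,
    f2 i ▸ range_subset_iff.2 fun w => by simpa using (d1 i).2 (fun n => w n.unpair.2) rfl⟩, d2⟩⟩
  have s1 : ∀ n, s (n + 1) = F (s n) := fun n => iterate_succ_apply' _ _ _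
  obtain ⟨z, hz⟩ := limx (fun n => (s n).1) (fun n => s1 n ▸ g1 _) fun n => s1 n ▸ g2 _
  obtain ⟨i, hi⟩ := h (f 0 fun m => z (Nat.pair 0 m))
  have e : f 0 (fun m => z (Nat.pair 0 m)) ≠ f i fun m => z (Nat.pair i m) := fun e =>
    hi (e ▸ f2 i ▸ mem_range_self _)
  obtain ⟨U, V, u1, v1, u2, v2, uv⟩ := t2_separation e
  have c : ∀ i, Continuous fun w : ℕ → ℕ => f i fun m => w (Nat.pair i m) := fun i =>
    (f1 i).comp (by fun_prop)
  obtain ⟨_, ⟨y, k, rfl⟩, k1, k2⟩ := (PiNat.isTopologicalBasis_cylinders fun _ : ℕ => ℕ).mem_nhds_iff.1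
    (inter_mem ((c 0).tendsto z (u1.mem_nhds u2)) ((c i).tendsto z (v1.mem_nhds v2)))
  have i0 : i ≠ 0 := fun h => e (h ▸ rfl)
  refine (s k).2 ⟨update (update (fun _ => univ) 0 U) i V, fun j => ⟨?_, fun w hw => ?_⟩,
    fun x => ?_⟩
  · by_cases e : j = i <;> by_cases e' : j = 0 <;>
      simp [e, e', i0.symm, u1.measurableSet, v1.measurableSet]
  · have := k2 (a := w) fun n hn => (PiNat.res_eq_res.1 (hw.trans (hz k).1.symm)
      (hn.trans_le (hz k).2)).trans (k1 n hn)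
    by_cases e : j = i
    · simpa [e] using this.2
    · by_cases e' : j = 0
      · simpa [e', i0.symm] using this.1
      · simp [e, e']
  · by_cases h : x ∈ U
    · exact ⟨i, by simpa using disjoint_left.1 uv h⟩
    · exact ⟨0, by simpa [i0.symm] using h⟩

theorem result (X : Type) [AddCommGroup X] [TopologicalSpace X] [IsTopologicalAddGroup X]
    [PolishSpace X] [MeasurableSpace X] [BorelSpace X] (A : Set X) (h1 : AnalyticSet A)
    (h2 : NF A) : ∃ B : Set X, MeasurableSet B ∧ NF B ∧ A ⊆ B := by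
  obtain ⟨u, u1, u2⟩ := h2
  obtain ⟨D, d1, d2⟩ := nov (fun i => ⋃ n, (· - u (i + n)) '' A) (fun i => AnalyticSet.iUnion
    fun n => h1.image_of_continuous (by fun_prop)) fun x => by
      obtain ⟨b, hb⟩ := (u2 x).bddAbove
      refine ⟨b + 1, fun h => ?_⟩
      obtain ⟨n, y, y1, rfl⟩ := mem_iUnion.1 h
      have := hb (a := b + 1 + n) (by simpa using y1)
      omega
  refine ⟨⋂ i, ⋂ n, (· - u (i + n)) ⁻¹' D i, MeasurableSet.iInter fun i => MeasurableSet.iInter
    fun n => measurable_sub_const _ (d1 i).1, ⟨u, u1, fun x => ?_⟩, fun y hy => mem_iInter₂.2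
      fun i n => (d1 i).2 (mem_iUnion.2 ⟨n, y, hy, rfl⟩)⟩
  obtain ⟨i, hi⟩ := d2 x
  refine (finite_Iio i).subset fun n hn => show n < i from not_le.1 fun h => hi ?_
  obtain ⟨m, rfl⟩ := Nat.exists_eq_add_of_le h
  simpa using mem_iInter₂.1 hn i m

end Pool.Agent.Results.MP_ceb5ee_gt.Q1
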