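import Mathlib
import Pool.Agent.H.MP_ea2cf4_gt.A

set_option autoImplicit false

namespace Pool.Agent.Results.MP_ceb5ee_gt.Q2

open Set Filter Topology Function MeasureTheory TopologicalSpace Pool.Agent.H.MP_ea2cf4_gt

section
variable {X : Type} (V : ℕ → Set X)

def ch (p : ℕ → ℕ) (j : ℕ) : ℕ → ℕ := fun n => p (Nat.pair j n + 1)

inductive Ev (q : X) : (ℕ → ℕ) → Bool → Prop
  | l1 (p k) : p 0 = k + 1 → q ∈ V k → Ev q p true
  | l0 (p k) : p 0 = k + 1 → q ∉ V k → Ev q p false
  | t (p) : p 0 = 0 → (∀ j, Ev q (ch p j) false) → Ev q p true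
  | f (p j) : p 0 = 0 → Ev q (ch p j) true → Ev q p false

variable {V}

theorem uniq {q : X} {p : ℕ → ℕ} {b : Bool} (h : Ev V q p b) : ¬ Ev V q p (!b) := by
  induction h with
  | l1 p k h1 h2 => intro h; cases h <;> grind
  | l0 p k h1 h2 => intro h; cases h <;> grind
  | t p h1 _ ih => intro h; cases h <;> grind
  | f p j h1 _ ih => intro h; cases h <;> grind

def sub (p : ℕ → ℕ) : List ℕ → ℕ → ℕ
  | [] => p
  | j :: σ => ch (sub p σ) j

theorem msub (σ : List ℕ) : Measurable fun p => sub p σ := by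
  induction σ with
  | nil => exact measurable_id
  | cons j σ ih => exact measurable_pi_lambda _ fun n => (measurable_pi_apply (Nat.pair j n + 1)).comp ih

def Cl (V : ℕ → Set X) (q : X) (p : ℕ → ℕ) (S : List ℕ × Bool → Bool) : Prop :=
  ∀ σ, (∀ k, sub p σ 0 = k + 1 → (q ∈ V k → S (σ, true) = true) ∧ (q ∉ V k → S (σ, false) = true)) ∧
    (sub p σ 0 = 0 → ((∀ j, S (j :: σ, false) = true) → S (σ, true) = true) ∧
      ∀ j, S (j :: σ, true) = true → S (σ, false) = true)

theorem ev_iff {q : X} {p : ℕ → ℕ} {b : Bool} :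
    Ev V q p b ↔ ∀ S, Cl V q p S → S ([], b) = true := by
  classical
  refine ⟨fun h S hS => ?_, fun h => of_decide_eq_true (h (fun x => decide (Ev V q (sub p x.1) x.2))
    fun σ => ?_)⟩
  · have : ∀ p' b, Ev V q p' b → ∀ σ, sub p σ = p' → S (σ, b) = true := fun p' b h => by
      induction h with
      | l1 p k h1 h2 => exact fun σ e => ((hS σ).1 k (e ▸ h1)).1 h2
      | l0 p k h1 h2 => exact fun σ e => ((hS σ).1 k (e ▸ h1)).2 h2
      | t p h1 _ ih => exact fun σ e => ((hS σ).2 (e ▸ h1)).1 fun j => ih j _ (e ▸ rfl)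
      | f p j h1 _ ih => exact fun σ e => ((hS σ).2 (e ▸ h1)).2 j (ih _ (e ▸ rfl))
    exact this p b h [] rfl
  · simp only [decide_eq_true_eq]
    exact ⟨fun k h => ⟨.l1 _ k h, .l0 _ k h⟩, fun h => ⟨.t _ h, fun j => .f _ j h⟩⟩

variable [TopologicalSpace X] [MeasurableSpace X] [BorelSpace X]

theorem code (hV : IsTopologicalBasis (range V)) {E : Set X} (hE : MeasurableSet E) :
    ∃ p, ∀ q, (q ∈ E → Ev V q p true) ∧ (q ∉ E → Ev V q p false) := by
  classical
  let P : Set X → Prop := fun E => ∃ p, ∀ q, (q ∈ E → Ev V q p true) ∧ (q ∉ E → Ev V q p false)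
  have h1 : ∀ E : ℕ → Set X, (∀ j, P (E j)) → P (⋃ j, E j)ᶜ := fun E h => by
    choose p hp using h
    have : ∀ j, ch (fun n => Nat.casesOn n 0 fun n => p n.unpair.1 n.unpair.2) j = p j :=
      fun j => funext fun n => by simp [ch]
    refine ⟨fun n => Nat.casesOn n 0 fun n => p n.unpair.1 n.unpair.2, fun q => ⟨fun h =>
      .t _ rfl fun j => this j ▸ (hp j q).2 fun h' => h (mem_iUnion.2 ⟨j, h'⟩), fun h => ?_⟩⟩
    obtain ⟨j, hj⟩ := mem_iUnion.1 (not_not.1 h)
    exact .f _ j rfl (this j ▸ (hp j q).1 hj)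
  have h2 : ∀ E, P E → P Eᶜ := fun E h => by simpa [iUnion_const] using h1 (fun _ => E) fun _ => h
  have h3 : ∀ E : ℕ → Set X, (∀ j, P (E j)) → P (⋃ j, E j) := fun E h => by
    simpa using h2 _ (h1 E h)
  have h4 : ∀ k, P (V k) := fun k => ⟨fun _ => k + 1, fun q => ⟨.l1 _ k rfl, .l0 _ k rfl⟩⟩
  have h5 : P ∅ := by
    convert h1 (fun j => if j = 0 then V 0 else (V 0)ᶜ) fun j => by
      beta_reduce
      split_ifs
      exacts [h4 0, h2 _ (h4 0)]
    refine (compl_empty_iff.2 (eq_univ_of_forall fun x => ?_)).symm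
    by_cases h : x ∈ V 0
    exacts [mem_iUnion.2 ⟨0, h⟩, mem_iUnion.2 ⟨1, h⟩]
  induction E, hE using MeasurableSet.induction_on_open with
  | isOpen U hU =>
    have := h3 (fun j => if V j ⊆ U then V j else ∅) fun j => by
      beta_reduce
      split_ifs
      exacts [h4 j, h5]
    suffices e : U = _ from e ▸ this
    refine Set.ext fun x => ⟨fun h => ?_, fun h => ?_⟩
    · obtain ⟨_, ⟨j, rfl⟩, j1, j2⟩ := hV.exists_subset_of_mem_open h hU
      exact mem_iUnion.2 ⟨j, by simpa [j2] using j1⟩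
    · obtain ⟨j, hj⟩ := mem_iUnion.1 h
      split_ifs at hj with e
      exacts [e hj, hj.elim]
  | compl s _ ih => exact h2 _ ih
  | iUnion f _ _ ih => exact h3 _ ih

theorem ana [PolishSpace X] (hV : ∀ k, MeasurableSet (V k)) (b : Bool) :
    AnalyticSet {x : X × (ℕ → ℕ) | ¬ Ev V x.1 x.2 b} := by
  have : PolishSpace Bool := ⟨⟩
  have h : MeasurableSet {x : (X × (ℕ → ℕ)) × (List ℕ × Bool → Bool) |
      Cl V x.1.1 x.1.2 x.2 ∧ ¬ x.2 ([], b) = true} := by
    have := msub
    refine Measurable.setOf ?_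
    unfold Cl
    fun_prop (disch := exact hV _)
  convert h.analyticSet.image_of_continuous continuous_fst
  ext x
  simp [ev_iff]

end

abbrev G := ℕ → ℤ × ℤ

def κ (y : G) (n : ℕ) : ℕ := (y n).2.toNat.sqrt
def xx (k : ℕ → ℕ) : G := fun n => (0, k n * k n + k n)
def uu (k : ℕ → ℕ) (j : ℕ) : G := fun n =>
  Denumerable.ofNat (ℤ × ℤ) (k (Nat.pair (j + 1) n)).unpair.1
def ss (k : ℕ → ℕ) (n : ℕ) : ℕ := (k (Nat.pair 0 n)).unpair.1

theorem result : ∃ (X : Type) (_ : AddCommGroup X) (_ : TopologicalSpace X) (_ : MeasurableSpace X),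
    IsTopologicalAddGroup X ∧ PolishSpace X ∧ BorelSpace X ∧ ∃ A : Set X, AnalyticSet Aᶜ ∧ NF A ∧
      ∀ B : Set X, MeasurableSet B → NF B → ¬ A ⊆ B := by
  classical
  obtain ⟨V, hV⟩ := (countable_countableBasis G).exists_eq_range
    (((isBasis_countableBasis _).exists_subset_of_mem_open (mem_univ 0) isOpen_univ).imp
      fun _ h => h.1)
  have v1 := hV ▸ isBasis_countableBasis G
  have c1 : Continuous κ := continuous_pi fun n => (continuous_of_discreteTopology
    (f := fun a : ℤ × ℤ => a.2.toNat.sqrt)).comp (continuous_apply n)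
  have c2 : ∀ j, Continuous fun y => xx (κ y) + uu (κ y) j := fun j => Continuous.comp
    (g := fun k => xx k + uu k j) (continuous_pi fun n => Continuous.add
      ((continuous_of_discreteTopology (f := fun a : ℕ => ((0, a * a + a) : ℤ × ℤ))).comp
        (continuous_apply n)) ((continuous_of_discreteTopology (f := fun a : ℕ =>
          Denumerable.ofNat (ℤ × ℤ) a.unpair.1)).comp (continuous_apply _))) c1
  have c3 : Continuous fun y => ss (κ y) := Continuous.comp (g := ss) (continuous_pi fun n =>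
    (continuous_of_discreteTopology (f := fun a : ℕ => a.unpair.1)).comp (continuous_apply _)) c1
  have c4 := fun j b => (ana (fun k => (v1.isOpen (mem_range_self k)).measurableSet) b).preimage
    ((c2 j).prodMk c3)
  refine ⟨G, inferInstance, inferInstance, inferInstance, inferInstance, inferInstance,
    inferInstance, {y | ∃ j, y = xx (κ y) + uu (κ y) j ∧ Ev V (xx (κ y) + uu (κ y) j) (ss (κ y))
      false ∧ ∀ i < j, Ev V (xx (κ y) + uu (κ y) i) (ss (κ y)) true}, ?_,
    ⟨fun n => Pi.single n (1, 0), tendsto_pi_nhds.2 fun i => tendsto_const_nhds.congr'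
      ((eventually_gt_atTop i).mono fun n hn => by simp [hn.ne]), fun w => ?_⟩,
    fun B hB ⟨u, u1, u2⟩ h => ?_⟩
  · have un : ∀ s t : Set G, AnalyticSet s → AnalyticSet t → AnalyticSet (s ∪ t) :=
      fun s t h1 h2 => union_eq_iUnion ▸ AnalyticSet.iUnion fun b => by cases b <;> assumption
    have := fun j => un _ _ (isClosed_eq continuous_id
      (c2 j)).isOpen_compl.measurableSet.analyticSet (un _ _ (c4 j false)
        (AnalyticSet.iUnion fun i : Iio j => c4 i true))
    convert AnalyticSet.iInter this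
    ext y
    simp only [mem_compl_iff, mem_ofPred_eq, not_exists, not_and_or, not_forall, mem_iInter,
      mem_union, mem_iUnion, mem_preimage, id, Subtype.exists, mem_Iio]
  · have e : ∀ n : ℕ, κ (w + (Pi.single n (1, 0) : G)) = κ w := fun n => funext fun i => by
      by_cases h : i = n <;> simp [κ, h]
    refine Set.Subsingleton.finite fun n ⟨i, i1, i2, i3⟩ m ⟨j, j1, j2, j3⟩ => ?_
    rw [e] at i1 i2 i3 j1 j2 j3
    obtain rfl : i = j := le_antisymm (not_lt.1 fun h => uniq (i3 j h) j2)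
      (not_lt.1 fun h => uniq (j3 i h) i2)
    by_contra h
    simpa [h] using congrFun (add_left_cancel (i1.trans j1.symm)) n
  · obtain ⟨s, hs⟩ := code v1 hB
    have : ∀ n, ∃ L : ℕ, ∀ j, |(u j n).2| ≤ L := fun n => by
      obtain ⟨L, hL⟩ := ((continuous_snd.tendsto _).comp
        (tendsto_pi_nhds.1 u1 n)).abs.bddAbove_range
      exact ⟨L.toNat, fun j => (hL ⟨j, rfl⟩).trans (Int.self_le_toNat L)⟩
    choose L hL using this
    let k : ℕ → ℕ := fun n => Nat.pair (Nat.casesOn n.unpair.1 (s n.unpair.2) fun j =>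
      Encodable.encode (u j n.unpair.2)) (L n)
    have k1 : ss k = s := funext fun n => by simp [ss, k]
    have k2 : uu k = u := funext fun j => funext fun n => by
      simp only [uu, k, Nat.unpair_pair, Denumerable.ofNat_encode]
    have k3 : ∀ j, κ (xx k + u j) = k := fun j => funext fun n => by
      have := abs_le.1 ((hL n j).trans (Nat.cast_le.2 (Nat.right_le_pair _ _ : L n ≤ k n)))
      refine (Nat.eq_sqrt.2 ?_).symm
      simp only [xx, Pi.add_apply, Prod.snd_add]
      constructor <;> zify <;> rw [Int.toNat_of_nonneg (by nlinarith)] <;> nlinarith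
    have h1 : ∃ j, xx k + u j ∉ B := (u2 (xx k)).exists_notMem
    refine Nat.find_spec h1 (h ⟨Nat.find h1, ?_⟩)
    rw [k3, k1, k2]
    exact ⟨rfl, (hs _).2 (Nat.find_spec h1), fun i hi => (hs _).1 (not_not.1 (Nat.find_min h1 hi))⟩

end Pool.Agent.Results.MP_ceb5ee_gt.Q2
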